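import Mathlib

/-!
# Counting integers with prescribed large prime factors
-/

set_option autoImplicit false

namespace Pool.Agent.N647.CF

open Filter Asymptotics

/-- the primes between the square root of `N` and `N` -/
def PN (N : ℕ) : Finset ℕ := (Finset.range (N + 1)).filter (fun q => q.Prime ∧ N < q ^ 2)

theorem card_PN (N : ℕ) : (Nat.primeCounting N : ℝ) - √N ≤ (PN N).card := by
  have h1 : Nat.primeCounting N ≤ (PN N).card + Nat.sqrt N := by
    have h2 : (Finset.range (N + 1)).filter Nat.Prime ⊆ PN N ∪ Finset.Icc 1 (Nat.sqrt N) := by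
      intro q hq
      rw [Finset.mem_filter, Finset.mem_range] at hq
      rw [Finset.mem_union, PN, Finset.mem_filter, Finset.mem_range, Finset.mem_Icc]
      by_cases h : N < q ^ 2
      · exact Or.inl ⟨hq.1, hq.2, h⟩
      · exact Or.inr ⟨hq.2.one_lt.le, Nat.le_sqrt'.2 (by omega)⟩
    have h3 := (Finset.card_le_card h2).trans (Finset.card_union_le _ _)
    rw [Nat.card_Icc, Nat.add_sub_cancel] at h3
    rw [Nat.primeCounting, Nat.primeCounting', Nat.count_eq_card_filter_range]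
    exact h3
  have h4 : (Nat.primeCounting N : ℝ) ≤ (PN N).card + Nat.sqrt N := by exact_mod_cast h1
  have h5 : (Nat.sqrt N : ℝ) ≤ √N := Real.nat_sqrt_le_real_sqrt
  linarith

theorem count_N (E : ℕ) (C : ℝ) (hC : 0 < C) (Q : ℕ) (P : ℤ → Prop)
    (h : ∀ q : ℕ, q.Prime → Q < q → ∃ d : ℤ, d ≠ 0 ∧ (q : ℤ) ∣ d ∧ |(d : ℝ)| ≤ C * (q : ℝ) ^ E ∧ P d)
    (N : ℕ) (hN : Q ^ 2 ≤ N) (hN' : C ^ 2 < N) :
    ∃ S : Finset ℤ, (PN N).card ≤ 2 * E * S.card ∧
      ∀ d ∈ S, |(d : ℝ)| ≤ C * (N : ℝ) ^ E ∧ P d := by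
  classical
  have h' : ∀ q : ℕ, ∃ d : ℤ, q.Prime → Q < q →
      (d ≠ 0 ∧ (q : ℤ) ∣ d ∧ |(d : ℝ)| ≤ C * (q : ℝ) ^ E ∧ P d) := by
    intro q
    by_cases hq : q.Prime ∧ Q < q
    · obtain ⟨d, hd⟩ := h q hq.1 hq.2
      exact ⟨d, fun _ _ => hd⟩
    · exact ⟨0, fun h1 h2 => absurd ⟨h1, h2⟩ hq⟩
  choose d hd using h'
  have hmem : ∀ q ∈ PN N, q.Prime ∧ Q < q ∧ q ≤ N ∧ N < q ^ 2 := by
    intro q hq
    rw [PN, Finset.mem_filter, Finset.mem_range] at hq
    refine ⟨hq.2.1, ?_, by omega, hq.2.2⟩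
    exact lt_of_pow_lt_pow_left₀ 2 (Nat.zero_le _) (lt_of_le_of_lt hN hq.2.2)
  have hbd : ∀ q ∈ PN N, |(d q : ℝ)| ≤ C * (N : ℝ) ^ E := by
    intro q hq
    obtain ⟨h1, h2, h3, -⟩ := hmem q hq
    refine (hd q h1 h2).2.2.1.trans (mul_le_mul_of_nonneg_left ?_ hC.le)
    exact pow_le_pow_left₀ (by positivity) (by exact_mod_cast h3) E
  refine ⟨(PN N).image d, ?_, ?_⟩
  · refine Finset.card_le_mul_card_image _ _ fun z hz => ?_
    by_contra hcon
    push Not at hcon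
    set T := (PN N).filter (fun x => d x = z) with hT
    have hTm : ∀ q ∈ T, q ∈ PN N ∧ d q = z := fun q hq => Finset.mem_filter.1 hq
    obtain ⟨q₀, hq₀⟩ : T.Nonempty := Finset.card_pos.1 (by omega)
    have hz0 : z ≠ 0 := by
      obtain ⟨h1, h2⟩ := hTm q₀ hq₀
      obtain ⟨h3, h4, -, -⟩ := hmem q₀ h1
      rw [← h2]
      exact (hd q₀ h3 h4).1
    have hzb : |(z : ℝ)| ≤ C * (N : ℝ) ^ E := by
      obtain ⟨h1, h2⟩ := hTm q₀ hq₀
      rw [← h2]
      exact hbd q₀ h1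
    have hdvd : ∏ q ∈ T, q ∣ z.natAbs := by
      refine Finset.prod_primes_dvd _ (fun q hq => ?_) fun q hq => ?_
      · exact (hmem q (hTm q hq).1).1.prime
      · obtain ⟨h1, h2⟩ := hTm q hq
        obtain ⟨h3, h4, -, -⟩ := hmem q h1
        have h5 := (hd q h3 h4).2.1
        rw [h2] at h5
        exact Int.natCast_dvd.1 h5
    have hle : ∏ q ∈ T, q ≤ z.natAbs := Nat.le_of_dvd (Int.natAbs_pos.2 hz0) hdvd
    have hge : N ^ T.card ≤ (∏ q ∈ T, q) ^ 2 := by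
      rw [← Finset.prod_pow, ← Finset.prod_const]
      exact Finset.prod_le_prod' fun q hq => (hmem q (hTm q hq).1).2.2.2.le
    have hN1 : 1 ≤ N := by
      have : (0 : ℝ) < N := lt_of_le_of_lt (sq_nonneg C) hN'
      exact_mod_cast this
    have h6 : N ^ (2 * E + 1) ≤ z.natAbs ^ 2 :=
      (Nat.pow_le_pow_right hN1 (by omega)).trans (hge.trans (Nat.pow_le_pow_left hle 2))
    have h7 : (N : ℝ) ^ (2 * E + 1) ≤ (C * (N : ℝ) ^ E) ^ 2 := by
      have h8 : ((N ^ (2 * E + 1) : ℕ) : ℝ) ≤ ((z.natAbs ^ 2 : ℕ) : ℝ) := by exact_mod_cast h6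
      push_cast at h8
      have h9 : ((z.natAbs : ℕ) : ℝ) = |(z : ℝ)| := by
        rw [Nat.cast_natAbs, Int.cast_abs]
      rw [h9] at h8
      exact h8.trans (pow_le_pow_left₀ (abs_nonneg _) hzb 2)
    have hNR : (0 : ℝ) < (N : ℝ) ^ (2 * E) := by
      have : (0 : ℝ) < N := by exact_mod_cast hN1
      positivity
    have h10 : (N : ℝ) * (N : ℝ) ^ (2 * E) ≤ C ^ 2 * (N : ℝ) ^ (2 * E) := by
      calc (N : ℝ) * (N : ℝ) ^ (2 * E) = (N : ℝ) ^ (2 * E + 1) := by rw [pow_succ]; ring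
        _ ≤ (C * (N : ℝ) ^ E) ^ 2 := h7
        _ = C ^ 2 * (N : ℝ) ^ (2 * E) := by rw [mul_pow, ← pow_mul, mul_comm E 2]
    have h11 := le_of_mul_le_mul_right h10 hNR
    linarith
  · intro z hz
    obtain ⟨q, hq, rfl⟩ := Finset.mem_image.1 hz
    obtain ⟨h1, h2, -, -⟩ := hmem q hq
    exact ⟨hbd q hq, (hd q h1 h2).2.2.2⟩

/-- a lower bound for the number of primes between the square root of `N` and `N` -/
theorem PN_lower : ∀ᶠ N : ℕ in atTop, (N : ℝ) / (4 * Real.log N) ≤ (PN N).card := by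
  have e1 : ∀ᶠ x : ℝ in atTop, Real.log (x + 1) ≤ x / 16 := by
    have h1 : (fun x : ℝ => Real.log x) =o[atTop] (fun x : ℝ => x) := Real.isLittleO_log_id_atTop
    have h2 := h1.bound (show (0 : ℝ) < 1 / 32 by norm_num)
    have h3 : Tendsto (fun x : ℝ => x + 1) atTop atTop := tendsto_atTop_add_const_right _ _ tendsto_id
    filter_upwards [h3.eventually h2, eventually_ge_atTop (1 : ℝ)] with x hx hx1
    rw [Real.norm_eq_abs, Real.norm_eq_abs, abs_of_pos (by linarith : (0 : ℝ) < x + 1)] at hx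
    have := le_abs_self (Real.log (x + 1))
    linarith
  have e2 : ∀ᶠ x : ℝ in atTop, √x * Real.log x ≤ x / 8 := by
    have h1 : (fun x : ℝ => Real.log x) =o[atTop] (fun x : ℝ => x ^ ((1 : ℝ) / 2)) :=
      isLittleO_log_rpow_atTop (by norm_num)
    have h2 := h1.bound (show (0 : ℝ) < 1 / 8 by norm_num)
    filter_upwards [h2, eventually_ge_atTop (1 : ℝ)] with x hx hx1
    rw [← Real.sqrt_eq_rpow, Real.norm_eq_abs, Real.norm_eq_abs,
      abs_of_nonneg (Real.sqrt_nonneg x)] at hx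
    have h3 := le_abs_self (Real.log x)
    have h4 : √x * Real.log x ≤ √x * (1 / 8 * √x) :=
      mul_le_mul_of_nonneg_left (by linarith) (Real.sqrt_nonneg x)
    have h5 : √x * √x = x := Real.mul_self_sqrt (by linarith)
    nlinarith
  have t : Tendsto (fun N : ℕ => (N : ℝ)) atTop atTop := tendsto_natCast_atTop_atTop
  filter_upwards [t.eventually e1, t.eventually e2, eventually_ge_atTop 2] with N h1 h2 hN
  have h3 := card_PN N
  have h4 := Chebyshev.pi_ge N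
  have hNR : (2 : ℝ) ≤ N := by exact_mod_cast hN
  have hlog : 0 < Real.log N := Real.log_pos (by linarith)
  have h5 : (1 / 2 : ℝ) < Real.log 2 := by
    have := Real.log_two_gt_d9
    linarith
  refine le_trans ?_ h3
  have h6 : ((N : ℝ) * Real.log 2 - Real.log (N + 1)) / Real.log N - √N ≤
      (Nat.primeCounting N : ℝ) - √N := by linarith
  refine le_trans ?_ h6
  rw [div_sub' hlog.ne', div_le_div_iff₀ (by positivity) hlog]
  have h7 : (N : ℝ) / 4 ≤ N * Real.log 2 - Real.log (N + 1) - Real.log N * √N := by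
    have h8 : (N : ℝ) * (1 / 2) ≤ N * Real.log 2 :=
      mul_le_mul_of_nonneg_left h5.le (by linarith)
    linarith
  calc (N : ℝ) * Real.log N = N / 4 * (4 * Real.log N) := by ring
    _ ≤ _ := mul_le_mul_of_nonneg_right h7 (by positivity)

/-- the counting lemma -/
theorem count_lemma (E : ℕ) (hE : 1 ≤ E) (C : ℝ) (hC : 0 < C) (Q : ℕ) (P : ℤ → Prop)
    (h : ∀ q : ℕ, q.Prime → Q < q → ∃ d : ℤ, d ≠ 0 ∧ (q : ℤ) ∣ d ∧ |(d : ℝ)| ≤ C * (q : ℝ) ^ E ∧ P d) :
    ∃ c : ℝ, 0 < c ∧ ∀ᶠ X : ℝ in atTop, ∃ S : Finset ℤ,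
      c * X ^ (1 / (E : ℝ)) / Real.log X ≤ S.card ∧ ∀ d ∈ S, |(d : ℝ)| ≤ X ∧ P d := by
  have hER : (0 : ℝ) < E := by exact_mod_cast hE
  have hE1 : (0 : ℝ) < 1 / (E : ℝ) := by positivity
  set κ : ℝ := C⁻¹ ^ (1 / (E : ℝ)) with hκ
  have hκ0 : 0 < κ := Real.rpow_pos_of_pos (inv_pos.2 hC) _
  refine ⟨κ / (32 * E), by positivity, ?_⟩
  -- the parameter
  have hfl : Tendsto (fun X : ℝ => ⌊κ * X ^ (1 / (E : ℝ))⌋₊) atTop atTop :=
    tendsto_nat_floor_atTop.comp ((tendsto_rpow_atTop hE1).const_mul_atTop hκ0)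
  have hbig : ∀ᶠ N : ℕ in atTop, Q ^ 2 ≤ N ∧ C ^ 2 < N ∧ 2 ≤ N := by
    filter_upwards [eventually_ge_atTop (Q ^ 2), eventually_gt_atTop ⌈C ^ 2⌉₊,
      eventually_ge_atTop 2] with N h1 h2 h3
    refine ⟨h1, ?_, h3⟩
    exact lt_of_le_of_lt (Nat.le_ceil _) (by exact_mod_cast h2)
  have hXκ : ∀ᶠ X : ℝ in atTop, κ * X ^ (1 / (E : ℝ)) ≤ X ^ (2 : ℝ) := by
    filter_upwards [eventually_ge_atTop (1 : ℝ), eventually_ge_atTop κ] with X hX hXκ
    have hX0 : 0 < X := by linarith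
    have h1 : X ^ (1 / (E : ℝ)) ≤ X := by
      have h2 : 1 / (E : ℝ) ≤ 1 := by
        rw [div_le_one hER]
        exact_mod_cast hE
      calc X ^ (1 / (E : ℝ)) ≤ X ^ (1 : ℝ) := Real.rpow_le_rpow_of_exponent_le hX h2
        _ = X := Real.rpow_one X
    have h3 : X ^ (2 : ℝ) = X * X := by
      rw [show (2 : ℝ) = ((2 : ℕ) : ℝ) by norm_num, Real.rpow_natCast, pow_two]
    rw [h3]
    exact mul_le_mul hXκ h1 (by positivity) hX0.le
  filter_upwards [hfl.eventually PN_lower, hfl.eventually hbig, hXκ, eventually_gt_atTop (1 : ℝ)]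
    with X h1 h2 h3 hX1
  obtain ⟨S, hS1, hS2⟩ := count_N E C hC Q P h _ h2.1 h2.2.1
  have hX0 : 0 < X := by linarith
  set N : ℕ := ⌊κ * X ^ (1 / (E : ℝ))⌋₊ with hN
  have hNle : (N : ℝ) ≤ κ * X ^ (1 / (E : ℝ)) := Nat.floor_le (by positivity)
  have hNge : κ * X ^ (1 / (E : ℝ)) < N + 1 := Nat.lt_floor_add_one _
  have hN2 : (2 : ℝ) ≤ N := by exact_mod_cast h2.2.2
  refine ⟨S, ?_, fun d hd => ⟨?_, (hS2 d hd).2⟩⟩
  · have hlogN : 0 < Real.log N := Real.log_pos (by linarith)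
    have hlogX : 0 < Real.log X := Real.log_pos hX1
    have hlog : Real.log N ≤ 2 * Real.log X := by
      rw [← Real.log_rpow hX0]
      exact Real.log_le_log (by linarith) (hNle.trans h3)
    have hS1' : ((PN N).card : ℝ) ≤ 2 * E * S.card := by exact_mod_cast hS1
    have h4 : (N : ℝ) / (4 * (2 * Real.log X)) ≤ (N : ℝ) / (4 * Real.log N) :=
      div_le_div_of_nonneg_left (by linarith) (by positivity) (by linarith)
    have h5 : (N : ℝ) / (8 * Real.log X) ≤ 2 * E * S.card := by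
      have : (N : ℝ) / (8 * Real.log X) = (N : ℝ) / (4 * (2 * Real.log X)) := by ring
      rw [this]
      linarith
    rw [div_le_iff₀ (by positivity)] at h5
    have h6 : κ * X ^ (1 / (E : ℝ)) ≤ 2 * N := by linarith
    rw [div_le_iff₀ hlogX, div_mul_eq_mul_div, div_le_iff₀ (by positivity)]
    nlinarith
  · refine (hS2 d hd).1.trans ?_
    have h4 : (N : ℝ) ^ E ≤ (κ * X ^ (1 / (E : ℝ))) ^ E := pow_le_pow_left₀ (by positivity) hNle E
    have h5 : (κ * X ^ (1 / (E : ℝ))) ^ E = C⁻¹ * X := by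
      have hE0 : (E : ℝ) ≠ 0 := hER.ne'
      rw [mul_pow, hκ, ← Real.rpow_natCast, ← Real.rpow_mul (inv_pos.2 hC).le,
        ← Real.rpow_natCast, ← Real.rpow_mul hX0.le, one_div, inv_mul_cancel₀ hE0, Real.rpow_one,
        Real.rpow_one]
    calc C * (N : ℝ) ^ E ≤ C * (C⁻¹ * X) := by
          rw [← h5]
          exact mul_le_mul_of_nonneg_left h4 hC.le
      _ = X := by field_simp

end Pool.Agent.N647.CF
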