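import Pool.Agent.N647.CF.DiscB

/-!
# An upper bound for the discriminant, using the order of a binary form
-/

set_option autoImplicit false

namespace Pool.Agent.N647.CF

open Polynomial NumberField Pool.Agent.W289.CG

/-- the discriminant is at most the discriminant of a family of integral elements -/
theorem abs_discr_le (K : Type) [Field K] [NumberField K] {n : ℕ} (u : Fin n → K)
    (hn : Module.finrank ℚ K = n) (hu : ∀ i, IsIntegral ℤ (u i)) (h0 : Algebra.discr ℚ u ≠ 0) :
    |(discr K : ℚ)| ≤ |Algebra.discr ℚ u| := by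
  classical
  have hcard : Fintype.card (Fin n) = Fintype.card (Module.Free.ChooseBasisIndex ℤ (𝓞 K)) := by
    rw [Fintype.card_fin, ← hn, ← Module.finrank_eq_card_basis (integralBasis K)]
  let e : Fin n ≃ Module.Free.ChooseBasisIndex ℤ (𝓞 K) := Fintype.equivOfCardEq hcard
  set v : Module.Free.ChooseBasisIndex ℤ (𝓞 K) → K := u ∘ e.symm with hv
  have hvi : ∀ i, IsIntegral ℤ (v i) := fun i => hu _
  have h1 : Algebra.discr ℚ v = Algebra.discr ℚ u := by
    have h2 : u = v ∘ e := by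
      ext i
      simp [hv]
    have h3 : Algebra.discr ℚ (v ∘ e) = Algebra.discr ℚ v := by
      rw [Algebra.discr_def, Algebra.discr_def]
      have h5 : Algebra.traceMatrix ℚ (v ∘ e) = (Algebra.traceMatrix ℚ v).submatrix e e := by
        ext i j
        simp [Algebra.traceMatrix]
      rw [h5, Matrix.det_submatrix_equiv_self]
    rw [h2, h3]
  set P := (integralBasis K).toMatrix v with hP
  have h2 : Algebra.discr ℚ v = P.det ^ 2 * (discr K : ℚ) := by
    rw [coe_discr, ← Algebra.discr_of_matrix_vecMul, hP, Module.Basis.toMatrix_map_vecMul]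
  obtain ⟨z, hz⟩ : ∃ z : ℤ, P.det = z := by
    have hw : ∀ j, ∃ w : 𝓞 K, algebraMap (𝓞 K) K w = v j := fun j => ⟨⟨v j, hvi j⟩, rfl⟩
    choose w hw using hw
    refine ⟨(Matrix.of fun i j => (RingOfIntegers.basis K).repr (w j) i).det, ?_⟩
    have hmap : P = (Int.castRingHom ℚ).mapMatrix
        (Matrix.of fun i j => (RingOfIntegers.basis K).repr (w j) i) := by
      ext i j
      have := integralBasis_repr_apply K (w j) i
      rw [hP, Module.Basis.toMatrix_apply, ← hw j, this]
      simp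
    rw [hmap, ← RingHom.map_det]
    rfl
  rw [← h1, h2, hz, abs_mul]
  have hz0 : z ≠ 0 := by
    rintro rfl
    rw [← h1, h2, hz] at h0
    simp at h0
  have hz1 : (1 : ℚ) ≤ |(z : ℚ) ^ 2| := by
    rw [abs_pow]
    have : (1 : ℤ) ≤ |z| := Int.one_le_abs hz0
    have h4 : (1 : ℚ) ≤ |(z : ℚ)| := by exact_mod_cast this
    exact one_le_pow₀ h4
  exact le_mul_of_one_le_left (abs_nonneg _) hz1

/-- `L θ ^ j` is integral for `j ≤ n` -/
theorem integral_mul_pow (K : Type) [Field K] [NumberField K] (n : ℕ) (a : Fin n → ℤ) (L S : ℤ)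
    (θ : K) (hθ : (L : K) * ∏ i, (θ - (a i : K)) + (S : K) = 0) (j : ℕ) (hj : j ≤ n) :
    IsIntegral ℤ ((L : K) * θ ^ j) := by
  have h : ∀ v : IsDedekindDomain.HeightOneSpectrum (𝓞 K), v.valuation K ((L : K) * θ ^ j) ≤ 1 := by
    intro v
    have hint : ∀ z : ℤ, v.valuation K (z : K) ≤ 1 := by
      intro z
      have := v.valuation_le_one (K := K) (z : 𝓞 K)
      simpa using this
    rcases le_or_gt (v.valuation K θ) 1 with h | h
    · rw [map_mul, map_pow]
      exact mul_le_one' (hint L) (pow_le_one' h j)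
    · have h1 : ∀ i, v.valuation K (θ - (a i : K)) = v.valuation K θ := fun i =>
        Valuation.map_sub_eq_of_lt_left _ ((hint _).trans_lt h)
      have h2 : v.valuation K (L : K) * v.valuation K θ ^ n = v.valuation K (S : K) := by
        have h3 := congrArg (v.valuation K) (eq_neg_of_add_eq_zero_left hθ)
        rw [map_mul, map_prod, Valuation.map_neg, Finset.prod_congr rfl fun i _ => h1 i,
          Finset.prod_const, Finset.card_univ, Fintype.card_fin] at h3
        exact h3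
      rw [map_mul, map_pow]
      calc v.valuation K (L : K) * v.valuation K θ ^ j
          ≤ v.valuation K (L : K) * v.valuation K θ ^ n :=
            mul_le_mul_right (pow_le_pow_right₀ h.le hj) _
        _ ≤ 1 := by rw [h2]; exact hint S
  obtain ⟨w, hw⟩ := IsDedekindDomain.HeightOneSpectrum.mem_integers_of_valuation_le_one K _ h
  rw [← hw]
  exact RingOfIntegers.isIntegral_coe w

/-- the size of the conjugates of `θ` -/
theorem norm_root_le2 {n : ℕ} (hn : 1 ≤ n) (a : Fin n → ℤ) (L S A : ℤ) (hL : 0 < L) (hS : 0 < S)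
    (hA : ∀ i, |a i| ≤ A) (z : ℂ) (hz : (L : ℂ) * ∏ i, (z - (a i : ℂ)) + (S : ℂ) = 0) :
    ‖z‖ ≤ A + 1 + (S : ℝ) / L := by
  by_contra hcon
  push Not at hcon
  have hLR : (0 : ℝ) < L := by exact_mod_cast hL
  have hSR : (0 : ℝ) < S := by exact_mod_cast hS
  set T : ℝ := (S : ℝ) / L with hT
  have hT0 : 0 < T := by positivity
  have h1 : ∀ i, 1 + T ≤ ‖z - (a i : ℂ)‖ := by
    intro i
    have h2 : ‖(a i : ℂ)‖ ≤ A := by
      rw [Complex.norm_intCast]
      exact_mod_cast hA i
    have h4 := norm_sub_norm_le z (a i : ℂ)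
    linarith
  have h5 : (1 + T) ^ n ≤ ∏ i, ‖z - (a i : ℂ)‖ := by
    calc (1 + T) ^ n = ∏ _i : Fin n, (1 + T) := by
          rw [Finset.prod_const, Finset.card_univ, Fintype.card_fin]
      _ ≤ _ := Finset.prod_le_prod (fun i _ => by positivity) fun i _ => h1 i
  have h6 : L * ∏ i, ‖z - (a i : ℂ)‖ = (S : ℝ) := by
    have h7 := congrArg norm (eq_neg_of_add_eq_zero_left hz)
    rw [norm_neg, norm_mul, norm_prod, Complex.norm_intCast, Complex.norm_intCast,
      abs_of_pos hLR, abs_of_pos hSR] at h7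
    exact h7
  have h8 : 1 + T ≤ (1 + T) ^ n := le_self_pow₀ (by linarith) (by omega)
  have h9 : L * (1 + T) ≤ L * ∏ i, ‖z - (a i : ℂ)‖ := mul_le_mul_of_nonneg_left (h8.trans h5) hLR.le
  have h10 : (L : ℝ) * T = S := by rw [hT]; field_simp
  nlinarith

theorem prod_wt (L : ℚ) (n : ℕ) (hn : 1 ≤ n) :
    ∏ i : Fin n, (if (i : ℕ) = 0 then (1 : ℚ) else L) = L ^ (n - 1) := by
  obtain ⟨k, rfl⟩ : ∃ k, n = k + 1 := ⟨n - 1, by omega⟩
  rw [Fin.prod_univ_eq_prod_range (fun i => if i = 0 then (1 : ℚ) else L) (k + 1),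
    Finset.prod_range_succ']
  simp

theorem disc_le2 (K : Type) [Field K] [NumberField K] (n : ℕ) (a : Fin n → ℤ) (L S A : ℤ) (θ : K)
    (hn : 1 ≤ n) (hK : Module.finrank ℚ K = n) (hL : 0 < L) (hS : 0 < S)
    (hA : ∀ i, |a i| ≤ A) (hθ : (L : K) * ∏ i, (θ - (a i : K)) + (S : K) = 0)
    (hgen : IntermediateField.adjoin ℚ {θ} = ⊤) :
    |(discr K : ℝ)| ≤ (L : ℝ) ^ (2 * (n - 1)) * (2 * (A + 1 + (S : ℝ) / L)) ^ (n * (n - 1)) := by
  classical
  have hLK : (L : K) ≠ 0 := by exact_mod_cast hL.ne'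
  have hθQ : IsIntegral ℚ θ := (Algebra.IsAlgebraic.isAlgebraic θ).isIntegral
  have hθtop : Algebra.adjoin ℚ {θ} = ⊤ := by
    rw [← IntermediateField.adjoin_simple_toSubalgebra_of_isAlgebraic
      (Algebra.IsAlgebraic.isAlgebraic θ), hgen]
    rfl
  set pb := PowerBasis.ofAdjoinEqTop hθQ hθtop with hpb
  have hgen' : pb.gen = θ := rfl
  have hdim : pb.dim = n := by rw [← pb.finrank, hK]
  set l : Fin pb.dim → ℚ := fun i => if (i : ℕ) = 0 then 1 else (L : ℚ) with hl
  set u : Fin pb.dim → K := fun i => pb.basis i * algebraMap ℚ K (l i) with hu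
  have hudisc : Algebra.discr ℚ u = ((L : ℚ) ^ (n - 1)) ^ 2 * Algebra.discr ℚ pb.basis := by
    have h1 : u = Matrix.vecMul pb.basis ((Matrix.diagonal l).map (algebraMap ℚ K)) := by
      ext i
      rw [Matrix.diagonal_map (map_zero _), Matrix.vecMul_diagonal]
    rw [h1, Algebra.discr_of_matrix_vecMul, Matrix.det_diagonal, hl, prod_wt _ _ (by omega),
      show pb.dim - 1 = n - 1 by omega]
  have hL0 : ((L : ℚ) ^ (n - 1)) ^ 2 ≠ 0 := by
    have : (L : ℚ) ≠ 0 := by exact_mod_cast hL.ne'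
    positivity
  have hu0 : Algebra.discr ℚ u ≠ 0 := by
    rw [hudisc]
    exact mul_ne_zero hL0 (Algebra.discr_not_zero_of_basis ℚ pb.basis)
  have hui : ∀ i, IsIntegral ℤ (u i) := by
    intro i
    rw [hu, hl]
    simp only
    rw [pb.basis_eq_pow, hgen']
    by_cases hi : (i : ℕ) = 0
    · rw [if_pos hi, hi]
      simpa using isIntegral_one
    · rw [if_neg hi, map_intCast, mul_comm]
      exact integral_mul_pow K n a L S θ hθ i (by have := i.2; omega)
  have h1 := abs_discr_le K u (by rw [hK, hdim]) hui hu0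
  have h2 := abs_discr_powerBasis_le K pb n hdim (A + 1 + (S : ℝ) / L) (by
    intro φ
    refine norm_root_le2 hn a L S A hL hS hA _ ?_
    rw [hgen']
    have h3 := congrArg φ hθ
    simpa [map_prod] using h3)
  have h3 : |(discr K : ℝ)| ≤ ((|Algebra.discr ℚ u| : ℚ) : ℝ) := by
    have : ((|(discr K : ℚ)| : ℚ) : ℝ) ≤ ((|Algebra.discr ℚ u| : ℚ) : ℝ) := by exact_mod_cast h1
    simpa using this
  refine h3.trans ?_
  rw [hudisc, abs_mul, abs_of_nonneg (by positivity)]
  push_cast
  rw [← pow_mul, mul_comm (n - 1) 2]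
  have hLR : (0 : ℝ) < L := by exact_mod_cast hL
  push_cast at h2
  exact mul_le_mul_of_nonneg_left h2 (by positivity)

end Pool.Agent.N647.CF
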