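import Pool.Agent.W289.CG.Core3

/-!
# The congruence conditions modulo a fixed modulus
-/

set_option autoImplicit false

namespace Pool.Agent.N647.CF

open Polynomial NumberField nonZeroDivisors Pool.Agent.W289.CG

/-- the congruence conditions on `s` and `t` -/
structure Good3 {n k : ℕ} (D : Dat n k) (m : ℕ) (q₁ : ℕ) (s t : ℤ) : Prop where
  hq₁ : q₁.Prime
  hqm : 4 * m ∣ q₁ + 1
  hqm' : m < q₁
  hq4 : 4 < q₁
  hc₁ : ¬ (q₁ : ℤ) ∣ D.c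
  hbad : ¬ (q₁ : ℤ) ∣ D.bad
  hs₁ : (q₁ : ℤ) ∣ s - 1
  ht₁ : (q₁ : ℤ) ∣ t
  hsc : D.c ∣ s - 1
  htc : D.c ∣ t - 1
  hsb : D.bad ∣ s - 1
  htb : D.bad ∣ t - 1
  tests : ∀ ℓ : ℕ, ℓ.Prime → ℓ ∣ m → ∀ h : Fin n ⊕ Fin k → ℕ, (∀ p, h p < ℓ) →
    (∃ p, ¬ ℓ ∣ h p) → ∃ q : ℕ, q.Prime ∧ PT D m (ℓ, h) q s t

theorem exists_good3 (hW : TaskWeil) (hR : TaskRoot) {n k : ℕ} (D : Dat n k) (m : ℕ)
    (hn : 1 ≤ n) (hk : 1 ≤ k) (hm : 2 ≤ m) :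
    ∃ (q₁ : ℕ) (M s₁ t₁ : ℤ), 0 < M ∧ IsCoprime s₁ M ∧ D.c ∣ M ∧
      ∀ s t : ℤ, M ∣ s - s₁ → M ∣ t - t₁ → Good3 D m q₁ s t := by
  classical
  set Z : ℤ := D.c * |D.bad| with hZ
  have hZ0 : 0 < Z := mul_pos D.hc (abs_pos.2 (bad_ne D))
  have : NeZero (4 * m) := ⟨by omega⟩
  obtain ⟨q₁, hq₁N, hq₁, hq₁m⟩ := Nat.forall_exists_prime_gt_and_eq_mod (q := 4 * m) (a := -1)
    (isUnit_one.neg) (Z.natAbs + m + 4)
  have hd : ∀ q : ℕ, Z.natAbs < q → ¬ (q : ℤ) ∣ Z := fun q hq => not_dvd_of_lt hZ0.ne' hq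
  have hc : ∀ q : ℕ, Z.natAbs < q → ¬ (q : ℤ) ∣ D.c := fun q hq h =>
    hd q hq (Dvd.dvd.mul_right h _)
  have hbad : ∀ q : ℕ, Z.natAbs < q → ¬ (q : ℤ) ∣ D.bad := fun q hq h =>
    hd q hq (Dvd.dvd.mul_left ((dvd_abs _ _).2 h) _)
  obtain ⟨s₂, t₂, b1, b2, b3, b4, b5⟩ := crt2 (M := Z) (M' := (q₁ : ℤ)) (s := 1)
    (t := 1) (s' := 1) (t' := 0) (coprime_of_prime hq₁ (hd q₁ (by omega))) isCoprime_one_left
    isCoprime_one_left
  -- the tests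
  set T : List (ℕ × (Fin n ⊕ Fin k → ℕ)) :=
    ((m.primeFactors ×ˢ Fintype.piFinset (fun _ : Fin n ⊕ Fin k => Finset.range m)).filter
      (fun τ => ∃ p, ¬ τ.1 ∣ τ.2 p)).toList with hT
  have hTm : ∀ τ, τ ∈ T ↔ (τ.1 ∈ m.primeFactors ∧ ∀ p, τ.2 p < m) ∧ ∃ p, ¬ τ.1 ∣ τ.2 p := by
    intro τ
    simp [hT]
  have hq₁0 : (0 : ℤ) < q₁ := by exact_mod_cast hq₁.pos
  obtain ⟨M, s₁, t₁, hM, hMM, hcop, hs, ht, hall⟩ := crt_tests (PT D m) PT.congr T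
    (by
      intro τ hτ Q
      rw [hTm] at hτ
      exact exists_test hW hR D m hn hk hm τ (Nat.prime_of_mem_primeFactors hτ.1.1)
        (Nat.dvd_of_mem_primeFactors hτ.1.1) hτ.2 Q)
    (Z * q₁) s₂ t₂ (by positivity) b5
  have hZc : D.c ∣ Z := Dvd.intro _ rfl
  have hZb : D.bad ∣ Z := (dvd_abs _ _).2 dvd_rfl |>.mul_left _
  have hZM : Z ∣ M := (Dvd.intro _ rfl).trans hMM
  refine ⟨q₁, M, s₁, t₁, hM, hcop, hZc.trans hZM, fun s t c1 c2 => ?_⟩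
  -- congruences of `s` and `t`
  have e1 : Z * q₁ ∣ s - s₂ := by
    have := (hMM.trans c1).add hs
    simpa using this
  have e2 : Z * q₁ ∣ t - t₂ := by
    have := (hMM.trans c2).add ht
    simpa using this
  have g1 : Z ∣ s - 1 := by
    have := ((Dvd.intro _ rfl).trans e1).add b1
    simpa using this
  have g2 : Z ∣ t - 1 := by
    have := ((Dvd.intro _ rfl).trans e2).add b2
    simpa using this
  have g5 : (q₁ : ℤ) ∣ s - 1 := by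
    have := ((Dvd.intro_left _ rfl).trans e1).add b3
    simpa using this
  have g6 : (q₁ : ℤ) ∣ t := by
    have := ((Dvd.intro_left _ rfl).trans e2).add b4
    simpa using this
  refine ⟨hq₁, ?_, by omega, by omega, hc _ (by omega), hbad _ (by omega), g5, g6, hZc.trans g1,
    hZc.trans g2, hZb.trans g1, hZb.trans g2, ?_⟩
  · have h1 : ((q₁ + 1 : ℕ) : ZMod (4 * m)) = 0 := by
      push_cast
      rw [hq₁m]
      ring
    exact (ZMod.natCast_eq_zero_iff _ _).1 h1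
  · intro ℓ hℓ hℓm h hlt hex
    have hle : ℓ ≤ m := Nat.le_of_dvd (by omega) hℓm
    obtain ⟨q, hq, hqM, hP⟩ := hall (ℓ, h) ((hTm _).2 ⟨⟨Nat.mem_primeFactors.2 ⟨hℓ, hℓm,
      by omega⟩, fun p => (hlt p).trans_le hle⟩, hex⟩)
    exact ⟨q, hq, hP.congr _ _ _ _ _ _ (hqM.trans c1) (hqM.trans c2)⟩

/-- the exact power of `q` in `t ^ m - s ^ m` -/
theorem exact_power3 {q m : ℕ} (hq : q.Prime) (hqm : ¬ q ∣ m) {s t : ℤ}
    (hs : ¬ (q : ℤ) ∣ s) (h1 : (q : ℤ) ∣ t - s) (h2 : ¬ (q : ℤ) ^ 2 ∣ t - s) :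
    (q : ℤ) ∣ t ^ m - s ^ m ∧ ¬ (q : ℤ) ^ 2 ∣ t ^ m - s ^ m := by
  have hqp : Prime (q : ℤ) := Nat.prime_iff_prime_int.1 hq
  have : Fact q.Prime := ⟨hq⟩
  have h3 := geom_sum₂_mul t s m
  have h4 : ¬ (q : ℤ) ∣ ∑ i ∈ Finset.range m, t ^ i * s ^ (m - 1 - i) := by
    rw [← zmod_iff] at hs h1 ⊢
    push_cast at h1 ⊢
    rw [sub_eq_zero.1 h1]
    have h5 : ∀ i ∈ Finset.range m, (s : ZMod q) ^ i * (s : ZMod q) ^ (m - 1 - i) =
        (s : ZMod q) ^ (m - 1) := by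
      intro i hi
      rw [Finset.mem_range] at hi
      rw [← pow_add]
      congr 1
      omega
    rw [Finset.sum_congr rfl h5, Finset.sum_const, Finset.card_range, nsmul_eq_mul]
    refine mul_ne_zero ?_ (pow_ne_zero _ hs)
    rw [Ne, ZMod.natCast_eq_zero_iff]
    exact hqm
  refine ⟨?_, ?_⟩
  · rw [← h3]
    exact Dvd.dvd.mul_left h1 _
  · intro h
    rw [← h3] at h
    obtain ⟨v, hv⟩ := h1
    rw [hv, pow_two] at h
    have h5 : (q : ℤ) ∣ (∑ i ∈ Finset.range m, t ^ i * s ^ (m - 1 - i)) * v := by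
      refine Int.dvd_of_mul_dvd_mul_left hqp.ne_zero ?_
      convert h using 1
      ring
    rcases hqp.dvd_or_dvd h5 with h6 | h6
    · exact h4 h6
    · apply h2
      rw [hv, pow_two]
      exact mul_dvd_mul_left _ h6

theorem good_arith3 {n k : ℕ} {D : Dat n k} {m q₁ : ℕ} {s t : ℤ} (hG : Good3 D m q₁ s t)
    (q : ℕ) (hq : q.Prime) (hqc : ¬ (q : ℤ) ∣ D.c) (hqm : ¬ q ∣ m) (hqs : ¬ (q : ℤ) ∣ s)
    (hq1 : (q : ℤ) ∣ t - s) (hq2 : ¬ (q : ℤ) ^ 2 ∣ t - s)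
    (hm : 2 ≤ m) (hs : 0 < s) (hst : s < t) (hcop : IsCoprime s t) :
    ∃ L : ℤ, 0 < L ∧ L * D.c = t ^ m - s ^ m ∧ IsCoprime L (s ^ m) ∧ (q : ℤ) ∣ L ∧
      ¬ (q : ℤ) ^ 2 ∣ L ∧ ¬ (q : ℤ) ∣ s ^ m ∧ IsCoprime s D.bad ∧ IsCoprime t D.bad := by
  have hc : D.c ∣ t ^ m - s ^ m := by
    refine Dvd.dvd.trans ?_ (sub_dvd_pow_sub_pow t s m)
    have := hG.htc.sub hG.hsc
    have h : t - s = t - 1 - (s - 1) := by ring
    rw [h]; exact this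
  obtain ⟨L, hL⟩ := hc
  have hpow : s ^ m < t ^ m := pow_lt_pow_left₀ hst hs.le (by omega)
  have hLpos : 0 < L := by
    have h1 : 0 < D.c * L := by rw [← hL]; linarith
    exact pos_of_mul_pos_right h1 D.hc.le |> fun h => h
  have hcop2 : IsCoprime (t ^ m - s ^ m) (s ^ m) := by
    have h1 : IsCoprime (t ^ m) (s ^ m) := (hcop.symm).pow
    have h2 : t ^ m - s ^ m = t ^ m + s ^ m * (-1) := by ring
    rw [h2]
    exact IsCoprime.add_mul_left_left h1 _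
  have hex := exact_power3 hq hqm hqs hq1 hq2
  have hp : Prime (q : ℤ) := Nat.prime_iff_prime_int.1 hq
  have hone : ∀ x d : ℤ, d ∣ x - 1 → IsCoprime x d := by
    intro x d ⟨w, hw⟩
    exact ⟨1, -w, by linear_combination hw⟩
  refine ⟨L, hLpos, by rw [hL]; ring, ?_, ?_, ?_, ?_, hone _ _ hG.hsb, hone _ _ hG.htb⟩
  · rw [hL] at hcop2
    exact IsCoprime.of_mul_left_right hcop2
  · have h1 := hex.1
    rw [hL] at h1
    exact (hp.dvd_or_dvd h1).resolve_left hqc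
  · intro h
    exact hex.2 (by rw [hL]; exact Dvd.dvd.mul_left h _)
  · intro h
    exact hqs (hp.dvd_of_dvd_pow h)

end Pool.Agent.N647.CF
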