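import Pool.Agent.N647.CF.St3
import Pool.Agent.N647.CF.Good3
import Pool.Agent.N647.CF.DiscC

/-!
# The fields, with a bound for the discriminant
-/

set_option autoImplicit false

namespace Pool.Agent.N647.CF

open Polynomial NumberField nonZeroDivisors Pool.Agent.W289.CG

/-- the fields attached to a good pair -/
theorem field_of_good3 (hCls : TaskCls) (hVal : TaskVal) (hLoc : TaskLoc) (hEmb : TaskEmb)
    (hMu : TaskMu) (hRed : TaskRed) (hIrr : TaskIrr)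
    (hDisc : TaskDisc) (hPl : TaskPl) {n k : ℕ} (hn : 2 ≤ n) (hk : 1 ≤ k) (D : Dat n k)
    (m : ℕ) (hm : 2 ≤ m) (q q₁ : ℕ) (s t : ℤ) (hG : Good3 D m q₁ s t) (hs0 : 0 < s)
    (hslt : s < t) (hst : IsCoprime s t) (A : ℤ) (hA : ∀ i, |D.a i| ≤ A)
    (hq : q.Prime) (hqc : ¬ (q : ℤ) ∣ D.c) (hqm : ¬ q ∣ m) (hqs' : ¬ (q : ℤ) ∣ s)
    (hq1 : (q : ℤ) ∣ t - s) (hq2 : ¬ (q : ℤ) ^ 2 ∣ t - s) (ρ : ℝ) (hρ : 1 < ρ)
    (hρs : ρ * s < t) :
    ∃ (K : Type) (_ : Field K) (_ : NumberField K), Module.finrank ℚ K = n ∧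
      (q : ℤ) ∣ discr K ∧
      |(discr K : ℝ)| ≤ ((t : ℝ) ^ m) ^ (2 * (n - 1)) *
        (2 * (A + 1 + D.c / (ρ ^ m - 1))) ^ (n * (n - 1)) ∧
      InfinitePlace.nrRealPlaces K =
        {X : ℝ | ∏ i, (X - (D.a i : ℝ)) = - ((s : ℝ) ^ m * D.c / ((t : ℝ) ^ m - (s : ℝ) ^ m))}.ncard ∧
      ∀ R, R + Units.rank K ≤ n + k - 1 →
        ∃ f : Multiplicative (Fin R → ZMod m) →* ClassGroup (𝓞 K), Function.Injective f := by
  obtain ⟨L, hL0, hLc, hcopL, hqL, hqL2, hqs, hsb, htb⟩ :=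
    good_arith3 hG q hq hqc hqm hqs' hq1 hq2 hm hs0 hslt hst
  have hirr := hIrr n D.a L (s ^ m) q (by omega) hq hqL hqL2 hqs hcopL
  obtain ⟨K, hK1, hK2, θ, hfr, hθ, hgen⟩ := exists_field _ hirr
  rw [natDegree_F (by omega) D.a L _ hL0.ne'] at hfr
  have hθ' := hθ
  rw [eval_F] at hθ'
  have hF : Fld D m s t L K θ := ⟨hLc, by push_cast at hθ'; exact hθ', hgen⟩
  have htn : t ≠ 0 := (hs0.trans hslt).ne'
  have hpt := ne_pt hF hs0.ne' htn
  refine ⟨K, hK1, hK2, hfr, ?_, ?_, ?_, ?_⟩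
  · exact hDisc K n D.a L (s ^ m) q θ hn hfr hq hqL hqL2 hqs hθ' hgen
  · have h1 := disc_le2 K n D.a L (s ^ m) A θ (by omega) hfr hL0 (pow_pos hs0 m) hA hθ' hgen
    have hA0 : 0 ≤ A := (abs_nonneg _).trans (hA ⟨0, by omega⟩)
    have hA0R : (0 : ℝ) ≤ A := by exact_mod_cast hA0
    have hLR : (0 : ℝ) < L := by exact_mod_cast hL0
    have hsR : (0 : ℝ) < s := by exact_mod_cast hs0
    have hcR : (0 : ℝ) < D.c := by exact_mod_cast D.hc
    have hLt : (L : ℝ) ≤ (t : ℝ) ^ m := by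
      have hsp : 0 < s ^ m := pow_pos hs0 m
      have h2 : L * 1 ≤ L * D.c := mul_le_mul_of_nonneg_left (Int.add_one_le_iff.2 D.hc) hL0.le
      have h3 : L ≤ t ^ m := by linarith
      exact_mod_cast h3
    have hρm : 1 < ρ ^ m := one_lt_pow₀ hρ (by omega)
    have hLeq : (L : ℝ) * D.c = (t : ℝ) ^ m - (s : ℝ) ^ m := by
      have : ((L * D.c : ℤ) : ℝ) = ((t ^ m - s ^ m : ℤ) : ℝ) := by rw [hLc]
      push_cast at this
      exact this
    have hts : ρ ^ m * (s : ℝ) ^ m ≤ (t : ℝ) ^ m := by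
      rw [← mul_pow]
      exact pow_le_pow_left₀ (by positivity) hρs.le m
    have hSL : (((s ^ m : ℤ)) : ℝ) / L ≤ D.c / (ρ ^ m - 1) := by
      rw [div_le_div_iff₀ hLR (by linarith)]
      push_cast
      nlinarith
    have hSL0 : 0 ≤ (((s ^ m : ℤ)) : ℝ) / L := by
      push_cast
      positivity
    refine h1.trans (mul_le_mul (pow_le_pow_left₀ hLR.le hLt _)
      (pow_le_pow_left₀ (by positivity) (by linarith) _) (by positivity) ?_)
    have : (0 : ℝ) < t := by nlinarith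
    positivity
  · rw [hPl K _ θ hirr hθ hgen]
    congr 1
    ext X
    simp only [Set.mem_ofPred_eq]
    rw [eval_F]
    have hL0' : (L : ℝ) ≠ 0 := by exact_mod_cast hL0.ne'
    have hc0 : (D.c : ℝ) ≠ 0 := by exact_mod_cast D.hc.ne'
    have h1 : (t : ℝ) ^ m - (s : ℝ) ^ m = L * D.c := by
      have : ((L * D.c : ℤ) : ℝ) = ((t ^ m - s ^ m : ℤ) : ℝ) := by rw [hLc]
      push_cast at this
      exact this.symm
    rw [h1]
    push_cast
    constructor
    · intro h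
      field_simp
      linear_combination h
    · intro h
      rw [h]
      field_simp
      ring
  · intro R hR
    obtain ⟨N', hN'⟩ : ∃ N', n + k = N' + 1 := ⟨n + k - 1, by omega⟩
    let σ : Fin (N' + 1) ≃ Fin n ⊕ Fin k := (finCongr hN'.symm).trans finSumFinEquiv.symm
    refine hCls K N' m R hm (by omega) (elt D σ θ hpt) ?_ ?_ ?_
    · intro i
      refine hVal K m _ (by omega) fun v => ?_
      exact hLoc n k D m s t L K θ (by omega) (by omega) hL0.ne' hs0.ne' htn hF hst hsb htb _ _ v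
    · intro ℓ hℓ hℓm
      exact indep_of_tests hEmb hRed hfr (by omega) hL0.ne' hF hpt σ ℓ hℓ (hG.tests ℓ hℓ hℓm)
    · intro ℓ hℓ hℓm
      have hx1 : Tst D m q₁ s t (D.b ⟨0, hk⟩) := by
        have hp : Prime (q₁ : ℤ) := Nat.prime_iff_prime_int.1 hG.hq₁
        refine ⟨hG.hq₁, hG.hc₁, ?_, ?_, ?_⟩
        · rw [D.hab, sub_self, mul_zero, sub_zero]
          exact Dvd.dvd.mul_right (dvd_pow hG.ht₁ (by omega)) _
        · intro h
          have h1 : (q₁ : ℤ) ∣ s ^ m := by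
            have := (dvd_pow hG.ht₁ (show m ≠ 0 by omega)).sub h
            simpa using this
          have h2 := hp.dvd_of_dvd_pow h1
          have h3 : (q₁ : ℤ) ∣ 1 := by
            have := h2.sub hG.hs₁
            simpa using this
          exact hp.not_isUnit (isUnit_of_dvd_one h3)
        · intro h
          exact hG.hbad (h.trans (dvd_bad D (Sum.inr ⟨0, hk⟩)))
      have hle : ℓ ≤ m := Nat.le_of_dvd (by omega) hℓm
      have hq1 : q₁ - 1 + 2 = q₁ + 1 := by have := hG.hq4; omega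
      refine ⟨fun hℓ2 => ?_, fun hℓ2 => ?_⟩
      · refine no_zeta hEmb hMu hfr (by omega) hL0.ne' hF hG.hq₁ hx1 ?_ ?_
        · intro h
          have := Nat.le_of_dvd hℓ.pos h
          have := hG.hqm'
          omega
        · intro h
          have h1 : ℓ ∣ q₁ + 1 := (hℓm.trans (Dvd.intro_left _ rfl)).trans hG.hqm
          rw [← hq1] at h1
          have h2 : ℓ ∣ 2 := (Nat.dvd_add_right h).1 h1
          exact hℓ2 ((Nat.prime_dvd_prime_iff_eq hℓ Nat.prime_two).1 h2)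
      · refine no_zeta hEmb hMu hfr (by omega) hL0.ne' hF hG.hq₁ hx1 ?_ ?_
        · intro h
          have := Nat.le_of_dvd (by norm_num) h
          have := hG.hq4
          omega
        · intro h
          have h1 : 4 ∣ q₁ + 1 := (Dvd.intro _ rfl).trans hG.hqm
          rw [← hq1] at h1
          have h2 : 4 ∣ 2 := (Nat.dvd_add_right h).1 h1
          norm_num at h2

/-- for every large prime `q` a field with discriminant divisible by `q` and of size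
`O(q ^ (2 m (n - 1)))` -/
theorem core3 (hCls : TaskCls) (hVal : TaskVal) (hLoc : TaskLoc) (hEmb : TaskEmb) (hMu : TaskMu)
    (hRed : TaskRed) (hWeil : TaskWeil) (hRoot : TaskRoot) (hIrr : TaskIrr)
    (hDisc : TaskDisc) (hPl : TaskPl) {n k : ℕ} (hn : 2 ≤ n) (hk : 1 ≤ k) (D : Dat n k)
    (m : ℕ) (hm : 2 ≤ m) (x y : ℝ) (hx : 1 ≤ x) (hxy : x < y) :
    ∃ C : ℝ, 0 < C ∧ ∃ Q : ℕ, ∀ q : ℕ, q.Prime → Q < q →
    ∃ (s t : ℤ) (K : Type) (_ : Field K) (_ : NumberField K), 0 < s ∧ x * s < t ∧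
      (t : ℝ) < y * s ∧ Module.finrank ℚ K = n ∧ (q : ℤ) ∣ discr K ∧
      |(discr K : ℝ)| ≤ C * (q : ℝ) ^ (2 * m * (n - 1)) ∧
      InfinitePlace.nrRealPlaces K =
        {X : ℝ | ∏ i, (X - (D.a i : ℝ)) = - ((s : ℝ) ^ m * D.c / ((t : ℝ) ^ m - (s : ℝ) ^ m))}.ncard ∧
      ∀ R, R + Units.rank K ≤ n + k - 1 →
        ∃ f : Multiplicative (Fin R → ZMod m) →* ClassGroup (𝓞 K), Function.Injective f := by
  obtain ⟨q₁, M, s₁, t₁, hM, hcop, hcM, hgood⟩ := exists_good3 hWeil hRoot D m (by omega) hk hm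
  obtain ⟨C₂, Q₂, hst3⟩ := st3 M s₁ t₁ hM hcop ((x + y) / 2) y (by linarith)
  obtain ⟨A, hA⟩ : ∃ A : ℕ, ∀ i, |D.a i| ≤ (A : ℤ) := by
    refine ⟨∑ i, (D.a i).natAbs, fun i => ?_⟩
    have h1 : (D.a i).natAbs ≤ ∑ i, (D.a i).natAbs :=
      Finset.single_le_sum (f := fun i => (D.a i).natAbs) (fun _ _ => Nat.zero_le _)
        (Finset.mem_univ i)
    rw [Int.abs_eq_natAbs]
    exact_mod_cast h1
  set ρ : ℝ := (x + y) / 2 with hρ
  have hρ1 : 1 < ρ := by rw [hρ]; linarith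
  have hρm : 1 < ρ ^ m := one_lt_pow₀ hρ1 (by omega)
  have hcR : (0 : ℝ) < D.c := by exact_mod_cast D.hc
  have hκ : 0 < D.c / (ρ ^ m - 1) := div_pos hcR (by linarith)
  set C : ℝ := ((C₂ : ℝ) ^ m) ^ (2 * (n - 1)) *
    (2 * ((A : ℝ) + 1 + D.c / (ρ ^ m - 1))) ^ (n * (n - 1)) with hC
  have hC0 : 0 ≤ C := by rw [hC]; positivity
  refine ⟨C + 1, by linarith, Q₂ + M.natAbs + m, fun q hq hQ => ?_⟩
  obtain ⟨s, t, hs, ht, hs0, hst, hxs, hys, htle, hqs, hq1, hq2⟩ := hst3 q hq (by omega)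
  have hsR : (0 : ℝ) < s := by exact_mod_cast hs0
  have hslt : s < t := by
    have h1 : (s : ℝ) < t := by nlinarith
    exact_mod_cast h1
  have hqM : ¬ (q : ℤ) ∣ M := by
    intro h
    have := Int.le_of_dvd hM h
    omega
  have hqm : ¬ q ∣ m := by
    intro h
    have := Nat.le_of_dvd (by omega) h
    omega
  obtain ⟨K, hK1, hK2, hfr, h1, h2, h3, h4⟩ := field_of_good3 hCls hVal hLoc hEmb hMu hRed hIrr
    hDisc hPl hn hk D m hm q q₁ s t (hgood s t hs ht) hs0 hslt hst A hA hq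
    (fun h => hqM (h.trans hcM)) hqm hqs hq1 hq2 ρ hρ1 hxs
  refine ⟨s, t, K, hK1, hK2, hs0, ?_, hys, hfr, h1, ?_, h3, h4⟩
  · have : x * s < ρ * s := mul_lt_mul_of_pos_right (by rw [hρ]; linarith) hsR
    linarith
  · have htR : (0 : ℝ) ≤ t := by
      have : (0 : ℤ) ≤ t := (hs0.trans hslt).le
      exact_mod_cast this
    have htleR : (t : ℝ) ≤ C₂ * q := by exact_mod_cast htle
    have h5 : ((t : ℝ) ^ m) ^ (2 * (n - 1)) ≤ (((C₂ : ℝ) * q) ^ m) ^ (2 * (n - 1)) :=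
      pow_le_pow_left₀ (by positivity) (pow_le_pow_left₀ htR htleR m) _
    refine h2.trans ((mul_le_mul_of_nonneg_right h5 ?_).trans ?_)
    · push_cast
      positivity
    · have h6 : (((C₂ : ℝ) * q) ^ m) ^ (2 * (n - 1)) *
          (2 * (((A : ℤ) : ℝ) + 1 + D.c / (ρ ^ m - 1))) ^ (n * (n - 1)) =
          C * (q : ℝ) ^ (2 * m * (n - 1)) := by
        rw [hC, mul_pow, mul_pow, ← pow_mul (q : ℝ), show m * (2 * (n - 1)) = 2 * m * (n - 1) by ring]
        push_cast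
        ring
      rw [h6]
      have h7 : (0 : ℝ) ≤ (q : ℝ) ^ (2 * m * (n - 1)) := by positivity
      nlinarith

end Pool.Agent.N647.CF
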