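import Pool.Agent.W289.CG.Test

/-!
# An upper bound for the discriminant
-/

set_option autoImplicit false

namespace Pool.Agent.N647.CF

open Polynomial NumberField Pool.Agent.W289.CG

/-- the discriminant is at most the discriminant of an integral power basis -/
theorem abs_discr_le_powerBasis (K : Type) [Field K] [NumberField K] (pb : PowerBasis ℚ K)
    (h : IsIntegral ℤ pb.gen) :
    |(discr K : ℚ)| ≤ |Algebra.discr ℚ pb.basis| := by
  classical
  have hcard : Fintype.card (Fin pb.dim) = Fintype.card (Module.Free.ChooseBasisIndex ℤ (𝓞 K)) := by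
    rw [Fintype.card_fin, ← pb.finrank, ← Module.finrank_eq_card_basis (integralBasis K)]
  let e : Fin pb.dim ≃ Module.Free.ChooseBasisIndex ℤ (𝓞 K) := Fintype.equivOfCardEq hcard
  set v : Module.Free.ChooseBasisIndex ℤ (𝓞 K) → K := pb.basis ∘ e.symm with hv
  have hvi : ∀ i, IsIntegral ℤ (v i) := by
    intro i
    rw [hv, Function.comp_apply, pb.basis_eq_pow]
    exact h.pow _
  have h1 : Algebra.discr ℚ v = Algebra.discr ℚ pb.basis := by
    rw [hv]
    have := Algebra.discr_reindex ℚ pb.basis e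
    exact this
  set P := (integralBasis K).toMatrix v with hP
  have h2 : Algebra.discr ℚ v = P.det ^ 2 * (discr K : ℚ) := by
    rw [coe_discr, ← Algebra.discr_of_matrix_vecMul, hP, Module.Basis.toMatrix_map_vecMul]
  obtain ⟨z, hz⟩ : ∃ z : ℤ, P.det = z := by
    have hw : ∀ j, ∃ w : 𝓞 K, algebraMap (𝓞 K) K w = v j := fun j => ⟨⟨v j, hvi j⟩, rfl⟩
    choose w hw using hw
    refine ⟨(Matrix.of fun i j => (RingOfIntegers.basis K).repr (w j) i).det, ?_⟩
    have hmap : P = (Int.castRingHom ℚ).mapMatrix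
        (Matrix.of fun i j => (RingOfIntegers.basis K).repr (w j) i) := by
      ext i j
      have := integralBasis_repr_apply K (w j) i
      rw [hP, Module.Basis.toMatrix_apply, ← hw j, this]
      simp
    rw [hmap, ← RingHom.map_det]
    rfl
  have h3 : Algebra.discr ℚ pb.basis ≠ 0 := Algebra.discr_not_zero_of_basis ℚ pb.basis
  rw [← h1, h2, hz, abs_mul]
  have hz0 : z ≠ 0 := by
    rintro rfl
    rw [← h1, h2, hz] at h3
    simp at h3
  have hz1 : (1 : ℚ) ≤ |(z : ℚ) ^ 2| := by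
    rw [abs_pow]
    have : (1 : ℤ) ≤ |z| := Int.one_le_abs hz0
    have h4 : (1 : ℚ) ≤ |(z : ℚ)| := by exact_mod_cast this
    exact one_le_pow₀ h4
  exact le_mul_of_one_le_left (abs_nonneg _) hz1

theorem sum_card_Ioi (n : ℕ) : (∑ i : Fin n, (Finset.Ioi i).card) * 2 = n * (n - 1) := by
  have h1 : ∑ i : Fin n, (Finset.Ioi i).card = ∑ i ∈ Finset.range n, (n - 1 - i) := by
    rw [← Fin.sum_univ_eq_sum_range (fun i => n - 1 - i) n]
    exact Finset.sum_congr rfl fun i _ => Fin.card_Ioi i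
  rw [h1, Finset.sum_range_reflect (fun i => i) n, Finset.sum_range_id_mul_two]

/-- the discriminant of a power basis in terms of the size of the conjugates -/
theorem abs_discr_powerBasis_le (K : Type) [Field K] [NumberField K] (pb : PowerBasis ℚ K) (n : ℕ)
    (hn : pb.dim = n) (B : ℝ) (hB : ∀ φ : K →ₐ[ℚ] ℂ, ‖φ pb.gen‖ ≤ B) :
    ((|Algebra.discr ℚ pb.basis| : ℚ) : ℝ) ≤ (2 * B) ^ (n * (n - 1)) := by
  classical
  subst hn
  have hcard : Fintype.card (Fin pb.dim) = Fintype.card (K →ₐ[ℚ] ℂ) := by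
    rw [Fintype.card_fin, AlgHom.card, pb.finrank]
  let e : Fin pb.dim ≃ (K →ₐ[ℚ] ℂ) := Fintype.equivOfCardEq hcard
  have h1 := Algebra.discr_powerBasis_eq_prod ℚ ℂ pb e
  have h2 : ((|Algebra.discr ℚ pb.basis| : ℚ) : ℝ) =
      ‖algebraMap ℚ ℂ (Algebra.discr ℚ pb.basis)‖ := by
    rw [eq_ratCast, Rat.cast_abs]
    rw [← Complex.ofReal_ratCast, Complex.norm_real, Real.norm_eq_abs]
  rw [h2, h1, norm_prod]
  have hB0 : 0 ≤ B := (norm_nonneg _).trans (hB (e ⟨0, pb.dim_pos⟩))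
  calc ∏ i : Fin pb.dim, ‖∏ j ∈ Finset.Ioi i, (e j pb.gen - e i pb.gen) ^ 2‖
      ≤ ∏ i : Fin pb.dim, ∏ _j ∈ Finset.Ioi i, (2 * B) ^ 2 := by
        refine Finset.prod_le_prod (fun i _ => norm_nonneg _) fun i _ => ?_
        rw [norm_prod]
        refine Finset.prod_le_prod (fun j _ => norm_nonneg _) fun j _ => ?_
        rw [norm_pow]
        refine pow_le_pow_left₀ (norm_nonneg _) ?_ 2
        calc ‖e j pb.gen - e i pb.gen‖ ≤ ‖e j pb.gen‖ + ‖e i pb.gen‖ := norm_sub_le _ _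
          _ ≤ 2 * B := by linarith [hB (e j), hB (e i)]
    _ = (2 * B) ^ (pb.dim * (pb.dim - 1)) := by
        rw [← sum_card_Ioi pb.dim]
        simp only [Finset.prod_const]
        rw [Finset.prod_pow_eq_pow_sum, ← pow_mul, mul_comm 2 (∑ i, _)]

/-- the size of the conjugates -/
theorem norm_root_le {n : ℕ} (hn : 1 ≤ n) (a : Fin n → ℤ) (L S A : ℤ) (hL : 0 < L) (hS : 0 < S)
    (hA : ∀ i, |a i| ≤ A) (z : ℂ)
    (hz : ∏ i, (z - (L : ℂ) * (a i : ℂ)) + (L : ℂ) ^ (n - 1) * (S : ℂ) = 0) :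
    ‖z‖ ≤ L * (A + 1) + S := by
  by_contra hcon
  push Not at hcon
  have hLR : (0 : ℝ) < L := by exact_mod_cast hL
  have hSR : (0 : ℝ) < S := by exact_mod_cast hS
  have h1 : ∀ i, (L : ℝ) + S ≤ ‖z - (L : ℂ) * (a i : ℂ)‖ := by
    intro i
    have h2 : ‖(L : ℂ) * (a i : ℂ)‖ ≤ L * A := by
      rw [norm_mul, Complex.norm_intCast, Complex.norm_intCast, abs_of_pos hLR]
      have h3 : |(a i : ℝ)| ≤ A := by exact_mod_cast hA i
      exact mul_le_mul_of_nonneg_left h3 hLR.le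
    have h4 := norm_sub_norm_le z ((L : ℂ) * (a i : ℂ))
    nlinarith
  have h5 : ((L : ℝ) + S) ^ n ≤ ∏ i, ‖z - (L : ℂ) * (a i : ℂ)‖ := by
    calc ((L : ℝ) + S) ^ n = ∏ _i : Fin n, ((L : ℝ) + S) := by
          rw [Finset.prod_const, Finset.card_univ, Fintype.card_fin]
      _ ≤ _ := Finset.prod_le_prod (fun i _ => by positivity) fun i _ => h1 i
  have h6 : ∏ i, ‖z - (L : ℂ) * (a i : ℂ)‖ = (L : ℝ) ^ (n - 1) * S := by
    rw [← norm_prod, eq_neg_of_add_eq_zero_left hz, norm_neg, norm_mul, norm_pow,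
      Complex.norm_intCast, Complex.norm_intCast, abs_of_pos hLR, abs_of_pos hSR]
  have h7 : (L : ℝ) ^ (n - 1) * S < ((L : ℝ) + S) ^ n := by
    obtain ⟨k, rfl⟩ : ∃ k, n = k + 1 := ⟨n - 1, by omega⟩
    rw [Nat.add_sub_cancel, pow_succ]
    have h8 : (L : ℝ) ^ k ≤ (L + S) ^ k := pow_le_pow_left₀ hLR.le (by linarith) k
    have h9 : 0 < (L : ℝ) ^ k := by positivity
    nlinarith
  linarith

theorem disc_le (K : Type) [Field K] [NumberField K] (n : ℕ) (a : Fin n → ℤ) (L S A : ℤ) (θ : K)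
    (hn : 1 ≤ n) (hK : Module.finrank ℚ K = n) (hL : 0 < L) (hS : 0 < S)
    (hA : ∀ i, |a i| ≤ A) (hθ : (L : K) * ∏ i, (θ - (a i : K)) + (S : K) = 0)
    (hgen : IntermediateField.adjoin ℚ {θ} = ⊤) :
    |discr K| ≤ (2 * (L * (A + 1) + S)) ^ (n * (n - 1)) := by
  set β : K := (L : K) * θ with hβ
  have hLK : (L : K) ≠ 0 := by exact_mod_cast hL.ne'
  have hβeq : ∏ i, (β - (L : K) * (a i : K)) + (L : K) ^ (n - 1) * (S : K) = 0 := by
    have h1 : ∏ i, (β - (L : K) * (a i : K)) = (L : K) ^ n * ∏ i, (θ - (a i : K)) := by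
      have h2 : (L : K) ^ n = ∏ _i : Fin n, (L : K) := by
        rw [Finset.prod_const, Finset.card_univ, Fintype.card_fin]
      rw [h2, ← Finset.prod_mul_distrib]
      refine Finset.prod_congr rfl fun i _ => ?_
      rw [hβ]; ring
    obtain ⟨k, rfl⟩ : ∃ k, n = k + 1 := ⟨n - 1, by omega⟩
    rw [h1, Nat.add_sub_cancel, pow_succ]
    linear_combination (L : K) ^ k * hθ
  have hint : IsIntegral ℤ β := by
    refine ⟨pA (fun i => L * a i) + C (L ^ (n - 1) * S), ?_, ?_⟩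
    · refine (pA_monic _).add_of_left ?_
      refine lt_of_le_of_lt degree_C_le ?_
      rw [← natDegree_pos_iff_degree_pos, pA_natDegree]
      omega
    · rw [← aeval_def, map_add, aeval_C, pA, map_prod]
      rw [← hβeq]
      congr 1
      · refine Finset.prod_congr rfl fun i _ => ?_
        simp
      · simp
  have hβQ : IsIntegral ℚ β := hint.tower_top
  have hβtop : Algebra.adjoin ℚ {β} = ⊤ := by
    have hθQ : IsAlgebraic ℚ θ := Algebra.IsAlgebraic.isAlgebraic θ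
    have hθtop : Algebra.adjoin ℚ {θ} = ⊤ := by
      rw [← IntermediateField.adjoin_simple_toSubalgebra_of_isAlgebraic hθQ, hgen]
      rfl
    rw [eq_top_iff, ← hθtop]
    refine Algebra.adjoin_le ?_
    rw [Set.singleton_subset_iff]
    have h1 : θ = (L : ℚ)⁻¹ • β := by
      rw [hβ, Algebra.smul_def]
      simp only [map_inv₀, map_intCast]
      rw [← mul_assoc, inv_mul_cancel₀ hLK, one_mul]
    rw [h1]
    exact Subalgebra.smul_mem _ (Algebra.subset_adjoin (Set.mem_singleton β)) _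
  set pb := PowerBasis.ofAdjoinEqTop hβQ hβtop with hpb
  have hgen' : pb.gen = β := rfl
  have hdim : pb.dim = n := by rw [← pb.finrank, hK]
  have h1 := abs_discr_le_powerBasis K pb (by rw [hgen']; exact hint)
  have h2 := abs_discr_powerBasis_le K pb n hdim (L * (A + 1) + S) (by
    intro φ
    refine norm_root_le hn a L S A hL hS hA _ ?_
    rw [hgen']
    have h3 := congrArg φ hβeq
    simpa [map_prod] using h3)
  have h3 : ((|(discr K : ℚ)| : ℚ) : ℝ) ≤ (2 * (L * (A + 1) + S)) ^ (n * (n - 1)) :=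
    le_trans (by exact_mod_cast h1) h2
  have h4 : ((|discr K| : ℤ) : ℝ) ≤ (((2 * (L * (A + 1) + S)) ^ (n * (n - 1)) : ℤ) : ℝ) := by
    push_cast at h3 ⊢
    exact h3
  exact_mod_cast h4

end Pool.Agent.N647.CF
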