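import Pool.Agent.N647.CF.Core5
import Pool.Agent.N647.CF.Cnt
import Pool.Agent.W289.CG.Fin

/-!
# Counting the fields for given data
-/

set_option autoImplicit false

namespace Pool.Agent.N647.CF

open Polynomial NumberField nonZeroDivisors Pool.Agent.W289.CG

/-- `d` is the discriminant of a number field of degree `n` with `r₁` real and `r₂` complex places
whose class group contains `(ℤ/m)^R` -/
def Big (n r₁ r₂ m R : ℕ) (d : ℤ) : Prop :=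
  ∃ (K : Type) (_ : Field K) (_ : NumberField K), discr K = d ∧ Module.finrank ℚ K = n ∧
    InfinitePlace.nrRealPlaces K = r₁ ∧ InfinitePlace.nrComplexPlaces K = r₂ ∧
    ∃ f : Multiplicative (Fin R → ZMod m) →* ClassGroup (𝓞 K), Function.Injective f

theorem count_fields {n k : ℕ} (hn : 2 ≤ n) (hk : 1 ≤ k) (D : Dat n k) (m : ℕ) (hm : 2 ≤ m)
    (r₁ r₂ : ℕ) (hr : r₁ + 2 * r₂ = n) (x y : ℝ) (hx : 1 ≤ x) (hxy : x < y)
    (hreal : ∀ s t : ℝ, 0 < s → x * s < t → t < y * s →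
      {X : ℝ | ∏ i, (X - (D.a i : ℝ)) = - (s ^ m * D.c / (t ^ m - s ^ m))}.ncard = r₁) :
    ∃ c : ℝ, 0 < c ∧ ∀ᶠ X : ℝ in Filter.atTop, ∃ S : Finset ℤ,
      c * X ^ (1 / ((2 * m * (n - 1) : ℕ) : ℝ)) / Real.log X ≤ S.card ∧
      ∀ d ∈ S, |(d : ℝ)| ≤ X ∧ Big n r₁ r₂ m (r₂ + k) d := by
  obtain ⟨C, hC, Q, hQ⟩ := core3 (Pool.Agent.W930.CG.cls Pool.Agent.W240.CG.grp
      Pool.Agent.W125.CG.uni)
      Pool.Agent.W64.CG.val Pool.Agent.W405.CG.loc Pool.Agent.W290.CG.emb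
      Pool.Agent.W349.CG.mu Pool.Agent.W349.CG.red Pool.Agent.W349.CG.WeilT.main
      Pool.Agent.W505.CG.root Pool.Agent.W505.CG.irr
      Pool.Agent.W505.CG.disc Pool.Agent.W240.CG.pl hn hk D m hm x y hx hxy
  refine count_lemma (2 * m * (n - 1)) (Nat.mul_pos (by omega) (by omega)) C hC Q _
    fun q hq hqQ => ?_
  obtain ⟨s, t, K, hK1, hK2, hs, hxs, hys, hfr, hqd, hdisc, hre, hcl⟩ := hQ q hq hqQ
  refine ⟨discr K, discr_ne_zero K, hqd, hdisc, K, hK1, hK2, rfl, hfr, ?_⟩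
  have hr1 : InfinitePlace.nrRealPlaces K = r₁ := by
    rw [hre]
    exact hreal s t (by exact_mod_cast hs) hxs hys
  have h8 := InfinitePlace.card_add_two_mul_card_eq_rank K
  have h7 := rank_eq K
  refine ⟨hr1, by omega, hcl _ ?_⟩
  omega

/-- the number of real solutions is known in an interval -/
theorem count_of_interval {n k : ℕ} (hn : 2 ≤ n) (hk : 1 ≤ k) (D : Dat n k) (m : ℕ) (hm : 2 ≤ m)
    (r₁ r₂ : ℕ) (hr : r₁ + 2 * r₂ = n) (v₁ v₂ : ℝ) (h₁ : 0 < v₁)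
    (h₁₂ : v₁ < v₂) (hcount : ∀ v, v₁ < v → v < v₂ →
      {X : ℝ | ∏ i, (X - (D.a i : ℝ)) = - v}.ncard = r₁) :
    ∃ c : ℝ, 0 < c ∧ ∀ᶠ X : ℝ in Filter.atTop, ∃ S : Finset ℤ,
      c * X ^ (1 / ((2 * m * (n - 1) : ℕ) : ℝ)) / Real.log X ≤ S.card ∧
      ∀ d ∈ S, |(d : ℝ)| ≤ X ∧ Big n r₁ r₂ m (r₂ + k) d := by
  have hcR : (0 : ℝ) < D.c := by exact_mod_cast D.hc
  have h₂ : 0 < v₂ := h₁.trans h₁₂
  have hm0 : m ≠ 0 := by omega
  have hmR : (0 : ℝ) < (m : ℝ)⁻¹ := by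
    have : (0 : ℝ) < m := by exact_mod_cast (by omega : 0 < m)
    positivity
  set x : ℝ := (1 + D.c / v₂) ^ ((m : ℝ)⁻¹) with hx
  set y : ℝ := (1 + D.c / v₁) ^ ((m : ℝ)⁻¹) with hy
  have hx0 : 0 ≤ 1 + D.c / v₂ := by positivity
  have hy0 : 0 ≤ 1 + D.c / v₁ := by positivity
  have hxm : x ^ m = 1 + D.c / v₂ := Real.rpow_inv_natCast_pow hx0 hm0
  have hym : y ^ m = 1 + D.c / v₁ := Real.rpow_inv_natCast_pow hy0 hm0
  have hx1 : 1 ≤ x := Real.one_le_rpow (by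
    have : 0 < D.c / v₂ := div_pos hcR h₂
    linarith) hmR.le
  have hxy : x < y := Real.rpow_lt_rpow hx0 (by
    have : D.c / v₂ < D.c / v₁ := div_lt_div_of_pos_left hcR h₁ h₁₂
    linarith) hmR
  refine count_fields hn hk D m hm r₁ r₂ hr x y hx1 hxy fun s t hsR hxs hys => ?_
  have htR : s < t := by nlinarith
  have hsm : 0 < s ^ m := by positivity
  have h3 : (1 + D.c / v₂) * s ^ m < t ^ m := by
    rw [← hxm, ← mul_pow]
    exact pow_lt_pow_left₀ hxs (by positivity) hm0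
  have h4 : t ^ m < (1 + D.c / v₁) * s ^ m := by
    rw [← hym, ← mul_pow]
    exact pow_lt_pow_left₀ hys (by linarith) hm0
  have h5 : 0 < t ^ m - s ^ m := by
    have h6 : 0 < D.c / v₂ * s ^ m := by positivity
    nlinarith
  apply hcount
  · rw [lt_div_iff₀ h5]
    have h6 : t ^ m - s ^ m < D.c / v₁ * s ^ m := by nlinarith
    have h7 : v₁ * (t ^ m - s ^ m) < v₁ * (D.c / v₁ * s ^ m) :=
      mul_lt_mul_of_pos_left h6 h₁
    have h8 : v₁ * (D.c / v₁ * s ^ m) = s ^ m * D.c := by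
      field_simp
    linarith
  · rw [div_lt_iff₀ h5]
    have h6 : D.c / v₂ * s ^ m < t ^ m - s ^ m := by nlinarith
    have h7 : v₂ * (D.c / v₂ * s ^ m) < v₂ * (t ^ m - s ^ m) :=
      mul_lt_mul_of_pos_left h6 h₂
    have h8 : v₂ * (D.c / v₂ * s ^ m) = s ^ m * D.c := by
      field_simp
    linarith

/-- few real places -/
theorem count_complex {n k : ℕ} (hn : 2 ≤ n) (hk : 1 ≤ k) (D : Dat n k) (m : ℕ) (hm : 2 ≤ m) :
    ∃ c : ℝ, 0 < c ∧ ∀ᶠ X : ℝ in Filter.atTop, ∃ S : Finset ℤ,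
      c * X ^ (1 / ((2 * m * (n - 1) : ℕ) : ℝ)) / Real.log X ≤ S.card ∧
      ∀ d ∈ S, |(d : ℝ)| ≤ X ∧ Big n (n % 2) (n / 2) m (n / 2 + k) d := by
  obtain ⟨B, hB⟩ := Pool.Agent.W240.CG.real1 n D.a (by omega) D.ha
  exact count_of_interval hn hk D m hm (n % 2) (n / 2) (by omega) (|B| + 1) (|B| + 2)
    (by positivity) (by linarith) fun v hv _ => hB v (by linarith [le_abs_self B])

/-- only real places -/
theorem count_real {n k : ℕ} (hn : 2 ≤ n) (hk : 1 ≤ k) (D : Dat n k) (m : ℕ) (hm : 2 ≤ m) :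
    ∃ c : ℝ, 0 < c ∧ ∀ᶠ X : ℝ in Filter.atTop, ∃ S : Finset ℤ,
      c * X ^ (1 / ((2 * m * (n - 1) : ℕ) : ℝ)) / Real.log X ≤ S.card ∧
      ∀ d ∈ S, |(d : ℝ)| ≤ X ∧ Big n n 0 m (0 + k) d := by
  have h3 : (0 : ℝ) < 1 / 3 ^ n := by positivity
  refine count_of_interval hn hk D m hm n 0 (by omega) (1 / 3 ^ n / 2) (1 / 3 ^ n)
    (by positivity) (by linarith) fun v hv hv' => ?_
  refine Pool.Agent.W240.CG.real2 n D.a (by omega) D.ha v (by linarith) ?_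
  have : (0 : ℝ) < 3 ^ n := by positivity
  rwa [lt_div_iff₀ this] at hv'

end Pool.Agent.N647.CF
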