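import Pool.Agent.W289.CG.Stm
import Pool.Agent.W289.CG.Crt

/-!
# The choice of `s` and `t` of size `O(q)` with `q` exactly dividing `t - s`
-/

set_option autoImplicit false

namespace Pool.Agent.N647.CF

open Pool.Agent.W289.CG

theorem st3 (M s₁ t₁ : ℤ) (hM : 0 < M) (hs₁ : IsCoprime s₁ M) (x y : ℝ) (hxy : x < y) :
    ∃ C Q : ℕ, ∀ q : ℕ, q.Prime → Q < q →
      ∃ s t : ℤ, M ∣ s - s₁ ∧ M ∣ t - t₁ ∧ 0 < s ∧ IsCoprime s t ∧ x * s < t ∧ (t : ℝ) < y * s ∧
        t ≤ C * q ∧ ¬ (q : ℤ) ∣ s ∧ (q : ℤ) ∣ t - s ∧ ¬ (q : ℤ) ^ 2 ∣ t - s := by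
  obtain ⟨k, rfl⟩ := Int.eq_ofNat_of_zero_le hM.le
  have hk : 0 < k := by exact_mod_cast hM
  have : NeZero k := ⟨hk.ne'⟩
  have hu : IsUnit ((s₁ : ℤ) : ZMod k) := (ZMod.coe_int_isUnit_iff_isCoprime s₁ k).mpr hs₁.symm
  obtain ⟨p, hpk, hp, hpe⟩ := Nat.forall_exists_prime_gt_and_eq_mod hu (k + 2)
  have hyx : 0 < y - x := by linarith
  obtain ⟨K₀, hK₀⟩ := exists_nat_gt (4 * (k : ℝ) / (y - x))
  have hkR : (0 : ℝ) < k := by exact_mod_cast hk
  have hK₀0 : (0 : ℝ) < K₀ := lt_trans (by positivity) hK₀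
  have hK₀N : 0 < K₀ := by exact_mod_cast hK₀0
  have hK₀' : 4 * (k : ℝ) < K₀ * (y - x) := by
    rwa [div_lt_iff₀ hyx] at hK₀
  set g : ℕ := p ^ Nat.totient k with hg
  have htot : 0 < Nat.totient k := Nat.totient_pos.2 hk
  have hg1 : 1 < g := Nat.one_lt_pow htot.ne' hp.one_lt
  have hgk : (g : ZMod k) = 1 := by
    have hcop : Nat.Coprime p k := by
      rw [hp.coprime_iff_not_dvd]
      intro h
      have := Nat.le_of_dvd hk h
      omega
    have h2 : ((ZMod.unitOfCoprime p hcop : (ZMod k)ˣ) : ZMod k) ^ Nat.totient k = 1 := by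
      rw [← Units.val_pow_eq_pow_val, ZMod.pow_totient, Units.val_one]
    rw [ZMod.coe_unitOfCoprime] at h2
    rw [hg]
    push_cast
    exact h2
  obtain ⟨Y, hY⟩ := exists_nat_gt y
  refine ⟨Y * (p * (g * K₀)), p + k + 2, fun q hq hqQ => ?_⟩
  have hqp' : Prime (q : ℤ) := Nat.prime_iff_prime_int.1 hq
  have hpp' : Prime (p : ℤ) := Nat.prime_iff_prime_int.1 hp
  have hq0 : 0 < q := hq.pos
  obtain ⟨j, hj1, hj2⟩ := exists_nat_pow_near (x := K₀ * q) (y := g)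
    (Nat.mul_pos hK₀N hq0) hg1
  set s : ℕ := p * g ^ (j + 1) with hs
  have hs0 : 0 < s := Nat.mul_pos hp.pos (pow_pos (by omega) _)
  have hsq : K₀ * q < s := by
    calc K₀ * q < g ^ (j + 1) := hj2
      _ ≤ p * g ^ (j + 1) := Nat.le_mul_of_pos_left _ hp.pos
  have hsle : s ≤ p * (g * (K₀ * q)) := by
    rw [hs, pow_succ']
    exact Nat.mul_le_mul_left _ (Nat.mul_le_mul_left _ hj1)
  have hsk : (k : ℤ) ∣ (s : ℤ) - s₁ := by
    rw [← ZMod.intCast_zmod_eq_zero_iff_dvd, Int.cast_sub, Int.cast_natCast, hs]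
    push_cast
    rw [hgk, one_pow, mul_one, hpe, sub_self]
  have hqs : ¬ (q : ℤ) ∣ (s : ℤ) := by
    intro h
    have h1 : q ∣ s := by exact_mod_cast h
    have h2 : q ∣ p := by
      rw [hs, hg, ← pow_mul] at h1
      rcases (Nat.Prime.dvd_mul hq).1 h1 with h2 | h2
      · exact h2
      · exact hq.dvd_of_dvd_pow h2
    have := Nat.le_of_dvd hp.pos h2
    omega
  have hqk : ¬ (q : ℤ) ∣ (k : ℤ) := by
    intro h
    have h1 : q ∣ k := by exact_mod_cast h
    have := Nat.le_of_dvd hk h1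
    omega
  have hpkd : ¬ (p : ℤ) ∣ (k : ℤ) := by
    intro h
    have h1 : p ∣ k := by exact_mod_cast h
    have := Nat.le_of_dvd hk h1
    omega
  have hpq : ¬ (p : ℤ) ∣ (q : ℤ) := by
    intro h
    have h1 : p ∣ q := by exact_mod_cast h
    have := (Nat.prime_dvd_prime_iff_eq hp hq).1 h1
    omega
  -- the class of `t`
  obtain ⟨τ, hτ1, hτ2⟩ : ∃ τ : ℤ, (k : ℤ) ∣ τ - t₁ ∧ (q : ℤ) ∣ τ - s := by
    obtain ⟨-, τ, -, h2, -, h4, -⟩ := crt2 (t := t₁) (t' := (s : ℤ)) (coprime_of_prime hq hqk)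
      (isCoprime_one_left (x := (k : ℤ))) (isCoprime_one_left (x := (q : ℤ)))
    exact ⟨τ, h2, h4⟩
  set W : ℤ := k * q with hW
  have hWpos : 0 < W := by positivity
  have hWR : (0 : ℝ) < W := by exact_mod_cast hWpos
  set r : ℤ := τ + W * (⌊(x * s - τ) / W⌋ + 1) with hr
  have hr1 : x * s < r := by
    have := Int.lt_floor_add_one ((x * s - τ) / W)
    rw [div_lt_iff₀ hWR] at this
    rw [hr]
    push_cast
    linarith
  have hr2 : (r : ℝ) ≤ x * s + W := by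
    have := Int.floor_le ((x * s - τ) / W)
    rw [le_div_iff₀ hWR] at this
    rw [hr]
    push_cast
    linarith
  have hlen : 4 * (W : ℝ) < (y - x) * s := by
    have h1 : ((K₀ * q : ℕ) : ℝ) < s := by exact_mod_cast hsq
    push_cast at h1
    have hqR : (0 : ℝ) < q := by exact_mod_cast hq0
    have h2 : 4 * (k : ℝ) * q < K₀ * (y - x) * q := mul_lt_mul_of_pos_right hK₀' hqR
    have h3 : (y - x) * (K₀ * q) < (y - x) * s := mul_lt_mul_of_pos_left h1 hyx
    rw [hW]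
    push_cast
    linarith
  have hsR : (0 : ℝ) < s := by exact_mod_cast hs0
  -- two bad terms
  have badp : ∀ i j : ℤ, i < j → j ≤ i + 2 → (p : ℤ) ∣ r + i * W → (p : ℤ) ∣ r + j * W →
      False := by
    intro i j hij hji h1 h2
    have h3 := h2.sub h1
    have h4 : r + j * W - (r + i * W) = (j - i) * (k * q) := by rw [hW]; ring
    rw [h4] at h3
    rcases hpp'.dvd_or_dvd h3 with h5 | h5
    · have := Int.le_of_dvd (by omega) h5
      omega
    · rcases hpp'.dvd_or_dvd h5 with h6 | h6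
      · exact hpkd h6
      · exact hpq h6
  have badq : ∀ i j : ℤ, i < j → j ≤ i + 2 → (q : ℤ) ^ 2 ∣ r + i * W - s →
      (q : ℤ) ^ 2 ∣ r + j * W - s → False := by
    intro i j hij hji h1 h2
    have h3 := h2.sub h1
    have h4 : r + j * W - s - (r + i * W - s) = q * ((j - i) * k) := by rw [hW]; ring
    rw [h4, pow_two] at h3
    have h5 : (q : ℤ) ∣ (j - i) * k := Int.dvd_of_mul_dvd_mul_left hqp'.ne_zero h3
    rcases hqp'.dvd_or_dvd h5 with h6 | h6
    · have := Int.le_of_dvd (by omega) h6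
      omega
    · exact hqk h6
  obtain ⟨i, hi0, hi2, hip, hiq⟩ : ∃ i : ℤ, 0 ≤ i ∧ i ≤ 2 ∧ ¬ (p : ℤ) ∣ r + i * W ∧
      ¬ (q : ℤ) ^ 2 ∣ r + i * W - s := by
    by_contra hcon
    push Not at hcon
    have e : ∀ i : ℤ, 0 ≤ i → i ≤ 2 → (p : ℤ) ∣ r + i * W ∨ (q : ℤ) ^ 2 ∣ r + i * W - s := by
      intro i h1 h2
      by_cases h : (p : ℤ) ∣ r + i * W
      · exact Or.inl h
      · exact Or.inr (hcon i h1 h2 h)
    rcases e 0 (by norm_num) (by norm_num) with a0 | a0 <;>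
      rcases e 1 (by norm_num) (by norm_num) with a1 | a1 <;>
      rcases e 2 (by norm_num) (by norm_num) with a2 | a2
    · exact badp 0 1 (by norm_num) (by norm_num) a0 a1
    · exact badp 0 1 (by norm_num) (by norm_num) a0 a1
    · exact badp 0 2 (by norm_num) (by norm_num) a0 a2
    · exact badq 1 2 (by norm_num) (by norm_num) a1 a2
    · exact badp 1 2 (by norm_num) (by norm_num) a1 a2
    · exact badq 0 2 (by norm_num) (by norm_num) a0 a2
    · exact badq 0 1 (by norm_num) (by norm_num) a0 a1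
    · exact badq 0 1 (by norm_num) (by norm_num) a0 a1
  have hiR0 : (0 : ℝ) ≤ i := by exact_mod_cast hi0
  have hiR2 : (i : ℝ) ≤ 2 := by exact_mod_cast hi2
  have hty : ((r + i * W : ℤ) : ℝ) < y * s := by
    push_cast
    nlinarith
  refine ⟨s, r + i * W, hsk, ?_, by exact_mod_cast hs0, ?_, ?_, hty, ?_, hqs, ?_, hiq⟩
  · have h1 : r + i * W - t₁ = (τ - t₁) + k * (q * (⌊(x * s - τ) / W⌋ + 1) + i * q) := by
      rw [hr, hW]; ring
    rw [h1]
    exact hτ1.add (Dvd.intro _ rfl)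
  · have h1 : IsCoprime (p : ℤ) (r + i * W) := (hpp'.coprime_iff_not_dvd).2 hip
    have h2 : (s : ℤ) = (p : ℤ) * ((p : ℤ) ^ Nat.totient k) ^ (j + 1) := by
      rw [hs, hg]; push_cast; ring
    rw [h2]
    exact h1.mul_left (h1.pow_left.pow_left)
  · push_cast
    nlinarith
  · have h3 : ((r + i * W : ℤ) : ℝ) ≤ ((Y * (p * (g * K₀)) : ℕ) : ℝ) * q := by
      have h4 : y * s ≤ Y * s := mul_le_mul_of_nonneg_right hY.le hsR.le
      have h5 : ((s : ℕ) : ℝ) ≤ ((p * (g * (K₀ * q)) : ℕ) : ℝ) := by exact_mod_cast hsle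
      have h6 : (Y : ℝ) * s ≤ Y * ((p * (g * (K₀ * q)) : ℕ) : ℝ) :=
        mul_le_mul_of_nonneg_left h5 (by positivity)
      push_cast at h6 hty ⊢
      nlinarith
    exact_mod_cast h3
  · have h1 : r + i * W - s = (τ - s) + q * (k * (⌊(x * s - τ) / W⌋ + 1) + i * k) := by
      rw [hr, hW]; ring
    rw [h1]
    exact hτ2.add (Dvd.intro _ rfl)

end Pool.Agent.N647.CF
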